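import Pool.Agent.ANP.Stmts
import Pool.Agent.Helper72_ANP.Phi

/-!
# The protocol: labels, interface with the analysis, final statement

Everything probabilistic is `H16.win_step`, `H16.att_gen_real` (`Helper16_ANP`) and the potential
function `H72.Phi` (`Helper72_ANP/Phi.lean`). Super-stage `n ≤ N` = the stages `kk n ≤ k < kk (n+1)`,
then the release phase with the clock `cl (kk (n+1))`.

The clock `s x` of a frozen site is not its remaining variance `r x`: a rejected noise is seen (`a`,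
`r` change) but not applied (`V`, `s` do not change). Only running and dead sites are in accordance
with the truth: `a = V`, `r = s`.
-/

set_option autoImplicit false

open MeasureTheory ProbabilityTheory

open scoped ENNReal NNReal BigOperators

noncomputable section

namespace Pool.Agent.ANP

/-! ### Labels -/

/-- `run` running, `pend` frozen, `op` frozen at the start of the super-stage, `dd n` died in
super-stage `n`, `bad n` the bad blocks of level `n` -/
structure Lb (X : Type) where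
  /-- running -/
  run : Finset X
  /-- frozen -/
  pend : Finset X
  /-- frozen at the start of the super-stage -/
  op : Finset X
  /-- died in super-stage `n` -/
  dd : ℕ → Finset X
  /-- bad blocks of level `n` -/
  bad : ℕ → Finset X

namespace Lb

variable {X : Type} [Fintype X] [DecidableEq X] (Γ : Geo X) (L : Lb X)

/-- the blocks of `𝓑` of level `n` become bad: the running sites of their `3 B` are frozen -/
def add (n : ℕ) (𝓑 : Finset X) : Lb X :=
  { L with run := L.run \ Γ.enl n 𝓑 1, pend := L.pend ∪ (L.run ∩ Γ.enl n 𝓑 1),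
           bad := Function.update L.bad n (L.bad n ∪ 𝓑) }

/-- `K` (killed) and `Q` (released) die in super-stage `n` -/
def die (n : ℕ) (K Q : Finset X) : Lb X :=
  { L with run := L.run \ K, pend := L.pend \ Q,
           dd := Function.update L.dd n (L.dd n ∪ K ∪ Q) }

/-- the end of super-stage `n`: the waiting sites get a shell of width `3 ρ n` -/
def shl (n : ℕ) : Lb X :=
  { L with run := L.run \ Γ.nbh (L.op ∩ L.pend) (3 * Γ.ρ n),
           pend := L.pend ∪ (L.run ∩ Γ.nbh (L.op ∩ L.pend) (3 * Γ.ρ n)),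
           op := L.pend ∪ (L.run ∩ Γ.nbh (L.op ∩ L.pend) (3 * Γ.ρ n)) }

/-- the blocks of level `n + 1` with more than `J` bad sub-blocks -/
def many (n : ℕ) : Finset X := {B | Γ.bl (n + 1) B = B ∧ Γ.J < (Γ.sub n (L.bad n) B).card}

/-- the start of super-stage `n + 1` -/
def nxt (n : ℕ) : Lb X := (L.shl Γ n).add Γ (n + 1) (L.many Γ n)

/-- `Q` may be released in super-stage `n` -/
def elig (n : ℕ) (Q : Finset X) : Prop :=
  Q ⊆ L.pend ∧ ∀ y ∈ Q, ∀ z ∈ Γ.enl n (L.bad n) 1, Γ.ρ n < Γ.D y z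

/-- the component of `x` in the sites which were frozen at the start of the super-stage -/
def cmp (n : ℕ) (x : X) : Finset X := Γ.comp L.op (10 * Γ.ρ n) x

/-- the start: everything is running -/
def ini (X : Type) [Fintype X] : Lb X := ⟨Finset.univ, ∅, ∅, fun _ => ∅, fun _ => ∅⟩

end Lb

/-- what follows from the label invariant -/
structure LFac {X : Type} [Fintype X] [DecidableEq X] (Γ : Geo X) (d : ℕ) (o : X) (Dn : ℕ → ℕ)
    (n : ℕ) (L : Lb X) : Prop where
  disj : Disjoint L.run L.pend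
  dead : ∀ x, x ∉ L.run → x ∉ L.pend → ∃ j ≤ n, x ∈ L.dd j
  dens : ∀ j B, (L.dd j ∩ Γ.blk j B).card ≤ Dn j
  rep : ∀ j, ∀ B ∈ L.bad j, Γ.bl j B = B
  frz : Disjoint L.run (Γ.enl n (L.bad n) 1)
  pen : n = 0 → L.op = ∅
  npe : ∀ x ∈ L.pend, x ∉ L.op → x ∈ Γ.enl n (L.bad n) 1
  /-- a component which may be released is small and isolated -/
  rel : ∀ x ∈ L.op, L.elig Γ n (L.cmp Γ n x) →
    (∀ y ∈ L.cmp Γ n x, Γ.D x y + Γ.ρ n ≤ Γ.L n) ∧
    (L.cmp Γ n x).card ≤ 3 ^ d * Γ.J * (6 * Γ.L (n - 1) + 1) ^ d ∧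
    ∀ y ∈ L.cmp Γ n x, ∀ z ∈ L.pend, z ∉ L.cmp Γ n x → Γ.ρ n < Γ.D y z
  /-- the origin -/
  orig : o ∉ L.run → ∃ j ≤ n, ∃ B ∈ L.bad j, B ∈ Γ.near o j
  /-- the frozen sites of the old super-stage at the start of the next one -/
  opn : ∀ m, n = m + 1 → L.op ⊆ Γ.enl m (L.bad m) 2

/-- LAB (uses SEP, SE2): THERE IS A LABEL INVARIANT. `Kn n` bounds the number of kills for one cluster.
Proof: `LI n L` = the fields of `LFac` with the exception of `rel` (which follows from `SepStmt`), the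
blocks of level `n = m + 1` outside `bad n` have at most `J` sub-blocks in `bad m`, `bad j = ∅` for
`n < j`, `dd j = ∅` for `n < j`, and the ledger of the releases of super-stage `n`: `dd n` is the union
of sets `G c`, `c ∈ C ⊆ op`, with `G c ⊆ nbh (cmp c) (ρ n)`, `card ≤ Kn n + card (cmp c)`, `cmp c` no
longer frozen, different `c` in different components, and every `b ∈ bad m` near `cmp c` in a block of
level `n` with at most `J` sub-blocks in `bad m` (it was not bad at the time of the release; `bad m` is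
fixed). Two components cannot meet the same `5 b` (its diameter is at most `10 ρ n`), so at most
`3 ^ d * J` of the `c` are near a given block of level `n`. `nxt`: the waiting components are not
eligible, `Se2Stmt`. `orig`: `near` allows `3 ρ (n+1) + 2 L n`. -/
def LabStmt : Prop :=
  ∀ (X : Type) [Fintype X] [DecidableEq X] (Γ : Geo X) (d : ℕ) (o : X) (Kn Dn : ℕ → ℕ),
    GeoOk Γ d → Scl Γ d →
    (∀ n, 1 ≤ n →
      3 ^ d * Γ.J * (Kn n + 3 ^ d * Γ.J * (6 * Γ.L (n - 1) + 1) ^ d) ≤ Dn n) →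
    ∃ LI : ℕ → Lb X → Prop,
      LI 0 (Lb.ini X) ∧
      (∀ n L, LI n L → LFac Γ d o Dn n L) ∧
      (∀ n L (𝓑 : Finset X), LI n L → (∀ B ∈ 𝓑, Γ.bl n B = B) → LI n (L.add Γ n 𝓑)) ∧
      (∀ n L x (K : Finset X), LI n L → x ∈ L.op → L.elig Γ n (L.cmp Γ n x) →
        K ⊆ L.run ∩ Γ.nbh (L.cmp Γ n x) (Γ.ρ n) → K.card ≤ Kn n →
        LI n (L.die n K (L.cmp Γ n x))) ∧
      ∀ n L, LI n L → (∀ x ∈ L.op, ¬ L.elig Γ n (L.cmp Γ n x)) → LI (n + 1) (L.nxt Γ n)

/-! ### The interface with the analysis -/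

/-- the facts about clocks and dead sites which the protocol guarantees in super-stage `n`, stage `k`,
processed sites `P` -/
structure Fc {X : Type} [Fintype X] [DecidableEq X] (Γ : Geo X) (kk : ℕ → ℕ) (cl : ℕ → ℝ≥0)
    (Dn : ℕ → ℕ) (n k : ℕ) (P : Finset X) (T : Cfg X) (run : Finset X) : Prop where
  runs : ∀ x ∈ run, T.s x = if x ∈ P then cl (k + 1) else cl k
  rest : ∀ x, x ∉ run → T.s x = 0 ∨
    (if x ∈ P then cl (k + 1) else cl k) ≤ T.s x ∧ T.s x ≤ cl 0
  dens : ∃ dd : ℕ → Finset X, (∀ x, T.s x = 0 → ∃ j ≤ n, x ∈ dd j) ∧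
    ∀ j B, (dd j ∩ Γ.blk j B).card ≤ Dn j
  /-- the shells: a site which was frozen before super-stage `m`, `n = m + 1`, is far from the running
  sites -/
  shell : ∀ m, n = m + 1 → ∀ x, x ∉ run → cl (kk m) < T.s x → ∀ y ∈ run, 3 * Γ.ρ m < Γ.D x y

/-- THE INTERFACE. `HS n k` the good configurations at the start of stage `k` (and at the start of the
release phase, `k = kk (n + 1)`), `HM n k T₀ run₀ P` during the stage (`T₀, run₀` the start, `P` the
processed sites), `HR n T₀ run₀ P` during the release phase. -/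
structure Ana {X : Type} [Fintype X] [DecidableEq X] (Γ : Geo X) (d : ℕ) (o : X)
    (F : Set (X → ℝ)) (th : ℝ≥0) (kk : ℕ → ℕ) (cl : ℕ → ℝ≥0) (Kn Dn : ℕ → ℕ) (p : ℕ → ℝ) where
  /-- start of a stage -/
  HS : ℕ → ℕ → Cfg X → Finset X → Prop
  /-- during a stage -/
  HM : ℕ → ℕ → Cfg X → Finset X → Finset X → Cfg X → Finset X → Prop
  /-- during the release phase -/
  HR : ℕ → Cfg X → Finset X → Finset X → Cfg X → Finset X → Prop
  /-- the first gauge -/
  m0 : X → ℂ
  ini : HS 0 0 ⟨fun _ => 0, fun _ => cl 0, m0⟩ Finset.univ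
  /-- start of a stage -/
  beg : ∀ n k T run, n ≤ Γ.N → kk n ≤ k → k < kk (n + 1) → Fc Γ kk cl Dn n k ∅ T run →
    HS n k T run → HM n k T run ∅ T run
  /-- freezing, rejected blocks count as processed -/
  mmon : ∀ n k T₀ run₀ P P' T run run', P ⊆ P' → run' ⊆ run → Fc Γ kk cl Dn n k P T run →
    Fc Γ kk cl Dn n k P' T run' → HM n k T₀ run₀ P T run → HM n k T₀ run₀ P' T run'
  /-- FLO: one block update; accepted iff `HM` holds afterwards -/
  flo : ∀ n k T₀ run₀ P T run B, n ≤ Γ.N → kk n ≤ k → k < kk (n + 1) → Γ.bl n B = B →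
    Disjoint P (Γ.blk n B) → HS n k T₀ run₀ → Fc Γ kk cl Dn n k ∅ T₀ run₀ →
    Fc Γ kk cl Dn n k P T run → HM n k T₀ run₀ P T run →
    gm (fun _ => 0) (T.hv th (run ∩ Γ.blk n B))
      {ζ | ¬ HM n k T₀ run₀ (P ∪ Γ.blk n B) (T.hf th (run ∩ Γ.blk n B) ζ) run} ≤
      ENNReal.ofReal (p n)
  /-- GAU: end of a stage -/
  fin : ∀ n k T₀ run₀ T run, n ≤ Γ.N → kk n ≤ k → k < kk (n + 1) →
    HS n k T₀ run₀ → Fc Γ kk cl Dn n k ∅ T₀ run₀ →
    Fc Γ kk cl Dn n k Finset.univ T run → HM n k T₀ run₀ Finset.univ T run →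
    ∃ m, HS n (k + 1) (T.rg m) run
  /-- start of the release phase -/
  rbeg : ∀ n T run, n ≤ Γ.N → Fc Γ kk cl Dn n (kk (n + 1)) ∅ T run → HS n (kk (n + 1)) T run →
    HR n T run ∅ T run
  /-- freezing, a failed cluster counts as processed -/
  rmon : ∀ n T₀ run₀ P P' T run run', P ⊆ P' → run' ⊆ run →
    Fc Γ kk cl Dn n (kk (n + 1)) ∅ T run → Fc Γ kk cl Dn n (kk (n + 1)) ∅ T run' →
    HR n T₀ run₀ P T run → HR n T₀ run₀ P' T run'
  /-- KIL + REL: the release of one cluster `Q`, for every potential `v` there -/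
  kil : ∀ n T₀ run₀ P T run (Q : Finset X) (v : X → ℝ), n ≤ Γ.N → 1 ≤ n →
    HS n (kk (n + 1)) T₀ run₀ → Fc Γ kk cl Dn n (kk (n + 1)) ∅ T₀ run₀ →
    Fc Γ kk cl Dn n (kk (n + 1)) ∅ T run → HR n T₀ run₀ P T run →
    Q.Nonempty → (∀ x ∈ Q, x ∉ run ∧ 0 < T.s x) → (∀ x ∈ Q, ∀ y ∈ Q, Γ.D x y ≤ 2 * Γ.L n) →
    Q.card ≤ 3 ^ d * Γ.J * (6 * Γ.L (n - 1) + 1) ^ d →
    (∀ x ∈ Q, ∀ y, Γ.D x y ≤ Γ.ρ n → y ∈ Q ∨ y ∈ run ∨ T.s y = 0) →
    (∀ x ∈ Q, ∀ y ∈ P, 3 * Γ.ρ n < Γ.D x y) →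
    Att (run ∩ Γ.nbh Q (Γ.ρ n)) Q v (fun T' =>
      (∀ x ∈ Q, T'.V x = v x ∧ T'.s x = 0) ∧
      ({x ∈ run | T'.s x = 0} : Finset X).card ≤ Kn n ∧
      HR n T₀ run₀ (P ∪ Γ.nbh Q (Γ.ρ n)) T' {x ∈ run | T'.s x ≠ 0}) T (ENNReal.ofReal (p n))
  /-- end of the release phase; `run'` = the running sites outside the new shells -/
  rfin : ∀ n T₀ run₀ P T run run', n ≤ Γ.N → HS n (kk (n + 1)) T₀ run₀ →
    Fc Γ kk cl Dn n (kk (n + 1)) ∅ T₀ run₀ → Fc Γ kk cl Dn n (kk (n + 1)) ∅ T run →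
    HR n T₀ run₀ P T run → run' ⊆ run → Fc Γ kk cl Dn (n + 1) (kk (n + 1)) ∅ T run' →
    ∃ m, HS (n + 1) (kk (n + 1)) (T.rg m) run'
  /-- the end: near the origin there are only running and dead sites -/
  out : ∀ T run (a : X → ℝ) (r : X → ℝ≥0), HS (Γ.N + 1) (kk (Γ.N + 1)) T run →
    Fc Γ kk cl Dn (Γ.N + 1) (kk (Γ.N + 1)) ∅ T run → o ∈ run →
    (∀ x, x ∉ run → T.s x ≠ 0 → 3 * Γ.ρ (Γ.N + 1) < Γ.D o x) →
    (∀ x, x ∈ run ∨ T.s x = 0 → a x = T.V x ∧ r x = T.s x) → Win F a r (1 / 4)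

/-- the sub-blocks, for `H72.Phi` -/
def Geo.ch {X : Type} [Fintype X] [DecidableEq X] (Γ : Geo X) (n : ℕ) (B : X) : Finset X :=
  {b | Γ.bl n b = b ∧ Γ.bl (n + 1) b = B}

/-- PRT (uses LAB, `H16.win_step`, `H16.att_gen_real`, `H72.coin_step`): THE PROTOCOL. `π n` bounds the
sum of the failure probabilities of the trials of one block of level `n`: at most one per stage and at
most one per site.
Proof: backward induction; the claim at every moment is `Win F a r (min 1 (Phi x + 1 / 4))` for all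
states with: `LI n L`; `1 ≤ QQ x j B` for `B ∈ L.bad j`; `Fc` for `T, L.run`; `0 < T.s y` on `L.pend`,
`T.s = 0` off `run ∪ pend`; `T.s y ≤ cl (kk n)` on `pend \ op`; `a = V`, `r = s` on `run` and off
`pend`; `HM` / `HR` / `HS`; `x (n, B) ≥ p n * (number of the remaining trials of B)` for the blocks `B`
of level `n` which are not bad, `x (j, B) ≥ π j` for `j > n`. One trial of a block: `H16.win_step`
(resp. `H16.att_gen_real`), `e₁ = min 1 (Phi (x (n,B) := x (n,B) - p n) + 1/4)`, `e₂ = min 1 (Phi (x (n,B)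
:= 1) + 1/4)`, `H72.coin_step`. A rejected block update: `L.add n {B}`, `T` unchanged, `a, r` changed
only at the sites of `B`, which are frozen. Release phase: the sites `x ∈ L.op` one after the other
(order arbitrary): if `cmp x` is eligible, one attempt with the coin of `bl n x` (this block is not
bad); success: `L.die n K (cmp x)`; failure: `L.add n {bl n x}`, `T` as before the attempt; `cmp x`
is in `3 B` (or `D ≤ ρ n`), so it is not eligible any more. `P ⊆` the union of `nbh (cmp c) (ρ n)` over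
processed `c`; different components have distance `> 10 ρ n`. End of super-stage `n`: `L.nxt n`. At
the end: if `o ∉ run` or a frozen site is within `3 ρ (N+1)` of `o` then a bad block is `near`, so
`Phi x ≥ 1`; otherwise `out`. -/
def PrtStmt : Prop :=
  ∀ (X : Type) [Fintype X] [DecidableEq X] (Γ : Geo X) (d : ℕ) (o : X) (F : Set (X → ℝ))
    (th : ℝ≥0) (kk : ℕ → ℕ) (cl : ℕ → ℝ≥0) (Kn Dn : ℕ → ℕ) (p π : ℕ → ℝ), MeasurableSet F →
    GeoOk Γ d → Scl Γ d → 0 < th → th < 1 →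
    (∀ n, 1 ≤ n →
      3 ^ d * Γ.J * (Kn n + 3 ^ d * Γ.J * (6 * Γ.L (n - 1) + 1) ^ d) ≤ Dn n) →
    kk 0 = 0 → (∀ n, kk n < kk (n + 1)) → (∀ k, cl (k + 1) = th * cl k) → 0 < cl 0 →
    (∀ n, 0 ≤ p n) → (∀ n, p n * ((kk (n + 1) : ℝ) - kk n + (Γ.L n : ℝ) ^ d) ≤ π n) →
    (∀ n, π n ≤ 1) →
    Nonempty (Ana Γ d o F th kk cl Kn Dn p) →
    H72.Phi Γ.ch Γ.J (Γ.N + 2) (Γ.near o) (fun i => π i.1) ≤ 1 / 4 →
    Win F (fun _ => 0) (fun _ => cl 0) (1 / 2)

end Pool.Agent.ANP
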