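import Mathlib

/-!
# The protocol: definitions

`X` the sites. The true potential is never revealed at once: `a x` is the noise seen so far at `x`,
`r x` the variance of the unseen rest. The analysis sees a configuration `(V, s, mb)`: applied
potential, clocks, gauge. Backward induction (`Win`): no measurability of any test is needed.
-/

set_option autoImplicit false

open MeasureTheory ProbabilityTheory

open scoped ENNReal NNReal BigOperators

noncomputable section

namespace Pool.Agent.ANP

/-! ### Gaussian measures and values -/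

section win

variable {X : Type} [Fintype X]

/-- independent Gaussian variables with means `a x` and variances `r x` -/
def gm (a : X → ℝ) (r : X → ℝ≥0) : Measure (X → ℝ) :=
  Measure.pi fun x => gaussianReal (a x) (r x)

/-- the probability of the set `F` of potentials is at most `e` -/
def Win (F : Set (X → ℝ)) (a : X → ℝ) (r : X → ℝ≥0) (e : ℝ) : Prop := (gm a r).real F ≤ e

end win

/-! ### Configurations -/

/-- applied potential, clocks, gauge -/
structure Cfg (X : Type) where
  /-- the applied potential -/
  V : X → ℝ
  /-- the clocks -/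
  s : X → ℝ≥0
  /-- the gauge -/
  mb : X → ℂ

namespace Cfg

variable {X : Type} [DecidableEq X]

/-- one update of the block `U`: noise on `U`, the clocks of `U` are multiplied by `th` -/
def hf (T : Cfg X) (th : ℝ≥0) (U : Finset X) (ζ : X → ℝ) : Cfg X :=
  ⟨fun x => if x ∈ U then T.V x + ζ x else T.V x,
    fun x => if x ∈ U then th * T.s x else T.s x, T.mb⟩

/-- one kill: noise on `D`, the clocks of `D` go to zero -/
def kl (T : Cfg X) (D : Finset X) (ζ : X → ℝ) : Cfg X :=
  ⟨fun x => if x ∈ D then T.V x + ζ x else T.V x, fun x => if x ∈ D then 0 else T.s x, T.mb⟩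

/-- the sites of `Q` are revealed: the potential there is the arbitrary `v` -/
def rv (T : Cfg X) (Q : Finset X) (v : X → ℝ) : Cfg X :=
  ⟨fun x => if x ∈ Q then v x else T.V x, fun x => if x ∈ Q then 0 else T.s x, T.mb⟩

/-- regauge -/
def rg (T : Cfg X) (m : X → ℂ) : Cfg X := ⟨T.V, T.s, m⟩

/-- variances of the noise of a block update -/
def hv (T : Cfg X) (th : ℝ≥0) (U : Finset X) (x : X) : ℝ≥0 :=
  if x ∈ U then (1 - th) * T.s x else 0

/-- variances of the noise of a kill -/
def kv (T : Cfg X) (D : Finset X) (x : X) : ℝ≥0 := if x ∈ D then T.s x else 0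

end Cfg

/-- ATTEMPT: from `T`, with the potential `v` on `Q` already seen, one can reach `Ok` by adaptive kills
inside `R` and applications of the sites of `Q`; `q` bounds the probability that the attempt fails (a
failed attempt is rolled back completely, so it may be given up at any time: `one`). -/
inductive Att {X : Type} [Fintype X] [DecidableEq X] (R Q : Finset X) (v : X → ℝ)
    (Ok : Cfg X → Prop) : Cfg X → ℝ≥0∞ → Prop
  | ok (T : Cfg X) : Ok T → Att R Q v Ok T 0
  | one (T : Cfg X) : Att R Q v Ok T 1
  | mono (T : Cfg X) (q q' : ℝ≥0∞) : q ≤ q' → Att R Q v Ok T q → Att R Q v Ok T q'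
  | ap (T : Cfg X) (b : X) (q : ℝ≥0∞) : b ∈ Q → Att R Q v Ok (T.rv {b} v) q → Att R Q v Ok T q
  | kill (T : Cfg X) (D : Finset X) (q : (X → ℝ) → ℝ≥0∞) : D ⊆ R → (∀ x ∈ D, 0 < T.s x) →
      Measurable q → (∀ ζ, Att R Q v Ok (T.kl D ζ) (q ζ)) →
      Att R Q v Ok T (∫⁻ ζ, q ζ ∂(gm (fun _ => 0) (T.kv D)))

/-! ### Coins -/

section coins

variable {I : Type} [DecidableEq I]

open Classical in
/-- the probability of `fail` if the coins `i ∈ U` are independent with probabilities `x i` -/
def Phi (U : Finset I) (fail : Finset I → Prop) (x : I → ℝ) : ℝ :=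
  ∑ ω ∈ U.powerset, (∏ i ∈ ω, x i) * (∏ i ∈ U \ ω, (1 - x i)) * (if fail ω then 1 else 0)

/-- more failed coins are worse -/
def Mon (fail : Finset I → Prop) : Prop := ∀ ω ω' : Finset I, ω ⊆ ω' → fail ω → fail ω'

end coins

/-! ### Blocks -/

/-- the scales and blocks on a finite set of sites: `D` the distance, `bl n x` the block of level `n`
of `x`, represented by one of its sites -/
structure Geo (X : Type) where
  /-- the distance -/
  D : X → X → ℕ
  /-- the block (its representative site) -/
  bl : ℕ → X → X
  /-- the side of the blocks of level `n` -/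
  L : ℕ → ℕ
  /-- the radius of the releases of super-stage `n` -/
  ρ : ℕ → ℕ
  /-- number of bad sub-blocks which are allowed -/
  J : ℕ
  /-- number of super-stages -/
  N : ℕ

namespace Geo

variable {X : Type} [Fintype X] [DecidableEq X] (Γ : Geo X)

/-- sites at distance at most `t` from the set `S` -/
def nbh (S : Finset X) (t : ℕ) : Finset X := {x | ∃ y ∈ S, Γ.D x y ≤ t}

/-- the sites of the block `B` of level `n` -/
def blk (n : ℕ) (B : X) : Finset X := {x | Γ.bl n x = B}

/-- the blocks of the set `𝓑` of level `n`, enlarged by `k` sides -/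
def enl (n : ℕ) (𝓑 : Finset X) (k : ℕ) : Finset X :=
  {x | ∃ y, Γ.bl n y ∈ 𝓑 ∧ Γ.D x y ≤ k * Γ.L n}

/-- the bad sub-blocks of `B` (level `n + 1`), `𝓑` = the bad blocks of level `n` -/
def sub (n : ℕ) (𝓑 : Finset X) (B : X) : Finset X := {b ∈ 𝓑 | Γ.bl (n + 1) b = B}

/-- the combinatorial bad sets: `ω` = the failed coins -/
def badS (ω : Finset (ℕ × X)) : ℕ → Finset X
  | 0 => {B | (0, B) ∈ ω}
  | n + 1 => {B | (n + 1, B) ∈ ω ∨ Γ.J < (Γ.sub n (badS ω n) B).card}

open Classical in
/-- the component of `x` in `S` for links of length at most `t` -/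
def comp (S : Finset X) (t : ℕ) (x : X) : Finset X :=
  {y | Relation.ReflTransGen (fun u v => u ∈ S ∧ v ∈ S ∧ Γ.D u v ≤ t) x y ∧ y ∈ S}

end Geo

/-! ### Labels -/

/-- running sites, frozen sites, frozen sites at the start of the super-stage, the sites which died in
super-stage `n`, the bad blocks of the previous and of this super-stage -/
structure Lab (X : Type) where
  /-- running -/
  run : Finset X
  /-- frozen (alive) -/
  pend : Finset X
  /-- frozen at the start of the super-stage -/
  op : Finset X
  /-- died in super-stage `n` -/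
  dd : ℕ → Finset X
  /-- bad blocks of the previous super-stage -/
  old : Finset X
  /-- bad blocks of this super-stage -/
  bad : Finset X

namespace Lab

variable {X : Type} [Fintype X] [DecidableEq X] (Γ : Geo X) (L : Lab X)

/-- freeze the running sites of `Y` -/
def fz (Y : Finset X) : Lab X := { L with run := L.run \ Y, pend := L.pend ∪ (L.run ∩ Y) }

/-- the block `B` of level `n` becomes bad: the running sites of `3 B` are frozen -/
def bd (n : ℕ) (B : X) : Lab X := { L.fz (Γ.enl n {B} 1) with bad := insert B L.bad }

/-- the sites of `K` (killed) and of `Q` (revealed) die in super-stage `n` -/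
def die (n : ℕ) (K Q : Finset X) : Lab X :=
  { L with run := L.run \ K, pend := L.pend \ Q,
           dd := fun m => if m = n then L.dd n ∪ K ∪ Q else L.dd m }

/-- `Q` may be released in super-stage `n` -/
def Elig (n : ℕ) (Q : Finset X) : Prop :=
  Q ⊆ L.pend ∧ ∀ x ∈ Q, ∀ y ∈ Γ.enl n L.bad 1, Γ.ρ n < Γ.D x y

end Lab

end Pool.Agent.ANP
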