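import Pool.Agent.ANP.Defs

/-!
# The protocol: statements

A. Win calculus (backward induction), B. coins, C. geometry of the frozen sets, D. the interface with
the analysis (`Ana`) and the final statement `PrtStmt`.
-/

set_option autoImplicit false

open MeasureTheory ProbabilityTheory

open scoped ENNReal NNReal BigOperators

noncomputable section

namespace Pool.Agent.ANP

/-! ### A. Win calculus -/

/-- GST: a Gaussian step. Proof: `gaussianReal (a x) (r x)` is the convolution of `gaussianReal 0 (τ x)`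
and `gaussianReal (a x) (r x - τ x)`; `gm a r` is the image of the product measure
`gm 0 τ × gm a (r - τ)` under addition (`Measure.pi_map_pi`, product of images), Tonelli.
Measurability: `gm a r` is the image of `gm 0 r` under `y ↦ a + y` (`Measurable.lintegral_prod`). -/
def GstStmt : Prop :=
  ∀ (X : Type) [Fintype X] (r : X → ℝ≥0) (F : Set (X → ℝ)), MeasurableSet F →
    (Measurable fun a : X → ℝ => gm a r F) ∧ ∀ (a : X → ℝ) (τ : X → ℝ≥0), (∀ x, τ x ≤ r x) →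
      gm a r F = ∫⁻ ζ, gm (fun x => a x + ζ x) (fun x => r x - τ x) F ∂(gm (fun _ => 0) τ)

/-- WSQ (uses GST): one step with a variable bound. Proof: integrate; `∫ min q 1 ≤ min (∫ q) 1`. -/
def WsqStmt : Prop :=
  ∀ (X : Type) [Fintype X] (F : Set (X → ℝ)), MeasurableSet F → ∀ (a : X → ℝ) (τ r : X → ℝ≥0)
    (q : (X → ℝ) → ℝ≥0∞) (e₁ e₂ : ℝ), (∀ x, τ x ≤ r x) → 0 ≤ e₁ → e₁ ≤ e₂ → Measurable q →
    (∀ ζ : X → ℝ, Win F (fun x => a x + ζ x) (fun x => r x - τ x)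
      (e₁ + (min (q ζ) 1).toReal * (e₂ - e₁))) →
    Win F a r (e₁ + (min (∫⁻ ζ, q ζ ∂(gm (fun _ => 0) τ)) 1).toReal * (e₂ - e₁))

/-- WST (uses GST): one test. `R` need not be measurable. Proof: `WSQ` with `q = 1` on the measurable
hull of `R`, `0` elsewhere. -/
def WstStmt : Prop :=
  ∀ (X : Type) [Fintype X] (F : Set (X → ℝ)), MeasurableSet F → ∀ (a : X → ℝ) (τ r : X → ℝ≥0)
    (R : Set (X → ℝ)) (p e₁ e₂ : ℝ), (∀ x, τ x ≤ r x) → 0 ≤ p → 0 ≤ e₁ → e₁ ≤ e₂ →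
    gm (fun _ => 0) τ R ≤ ENNReal.ofReal p →
    (∀ ζ : X → ℝ, ζ ∉ R → Win F (fun x => a x + ζ x) (fun x => r x - τ x) e₁) →
    (∀ ζ : X → ℝ, Win F (fun x => a x + ζ x) (fun x => r x - τ x) e₂) →
    Win F a r (e₁ + p * (e₂ - e₁))

/-- ATW (uses GST, WSQ): an attempt. Proof: first reveal `Q` (noise with the variances `r` on `Q`),
then induction on `Att`: for all `T', a', r'` which agree (`a' = T'.V`, `r' = T'.s`) on `R`, with
`a' = v`, `r' = 0` on `Q`, unchanged off `Q ∪ R`: `Win F a' r' (e₁ + (min q 1).toReal * (e₂ - e₁))`.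
For `ok` it is the first hypothesis, `one` the second, `ap` changes neither `a'` nor `r'`, `kill` is
`WSQ` with `τ = T'.kv D`. Note that the sites of `Q` need not be applied at `ok`. -/
def AtwStmt : Prop :=
  ∀ (X : Type) [Fintype X] [DecidableEq X] (F : Set (X → ℝ)), MeasurableSet F →
    ∀ (R Q : Finset X) (Ok : (X → ℝ) → Cfg X → Prop) (T : Cfg X) (a : X → ℝ) (r : X → ℝ≥0)
      (p e₁ e₂ : ℝ), Disjoint R Q → 0 ≤ p → 0 ≤ e₁ → e₁ ≤ e₂ →
    (∀ x ∈ R, a x = T.V x ∧ r x = T.s x) →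
    (∀ v, Att R Q v (Ok v) T (ENNReal.ofReal p)) →
    (∀ v T' a' r', Ok v T' → T'.mb = T.mb → (∀ x ∈ R, a' x = T'.V x ∧ r' x = T'.s x) →
      (∀ x ∈ R, T'.s x = 0 ∨ T'.V x = T.V x ∧ T'.s x = T.s x) →
      (∀ x ∈ Q, a' x = v x ∧ r' x = 0) →
      (∀ x, x ∉ Q → x ∉ R → a' x = a x ∧ r' x = r x ∧ T'.V x = T.V x ∧ T'.s x = T.s x) →
      Win F a' r' e₁) →
    (∀ a' r', (∀ x, x ∉ Q → x ∉ R → a' x = a x ∧ r' x = r x) → Win F a' r' e₂) →
    Win F a r (e₁ + p * (e₂ - e₁))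

/-! ### B. Coins -/

/-- PHI: the properties of `Phi`. Proof: `Phi` is affine in `x i`: `Phi x = (1 - x i) Phi (x i := 0) +
x i Phi (x i := 1)`, and `Phi (x i := 0) ≤ Phi (x i := 1)` because `fail` is monotone (pair `ω` with
`insert i ω`). -/
def PhiStmt : Prop :=
  ∀ (I : Type) [DecidableEq I] (U : Finset I) (fail : Finset I → Prop), Mon fail →
    (∀ x : I → ℝ, (∀ i, 0 ≤ x i ∧ x i ≤ 1) → 0 ≤ Phi U fail x ∧ Phi U fail x ≤ 1) ∧
    (∀ x y : I → ℝ, (∀ i, 0 ≤ x i ∧ x i ≤ y i ∧ y i ≤ 1) → Phi U fail x ≤ Phi U fail y) ∧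
    (∀ (x : I → ℝ) (i : I) (u p : ℝ), (∀ i, 0 ≤ x i ∧ x i ≤ 1) → 0 ≤ u → 0 ≤ p → u + p ≤ x i →
      Phi U fail (Function.update x i u) +
        p * (Phi U fail (Function.update x i 1) - Phi U fail (Function.update x i u)) ≤
      Phi U fail x) ∧
    ∀ (x : I → ℝ) (ω : Finset I), (∀ i, 0 ≤ x i ∧ x i ≤ 1) → ω ⊆ U → (∀ i ∈ ω, x i = 1) → fail ω →
      Phi U fail x = 1

/-! ### C. Geometry -/

/-- the metric and the blocks -/
structure GeoOk {X : Type} [Fintype X] [DecidableEq X] (Γ : Geo X) (d : ℕ) : Prop where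
  self : ∀ x, Γ.D x x = 0
  comm : ∀ x y, Γ.D x y = Γ.D y x
  tri : ∀ x y z, Γ.D x z ≤ Γ.D x y + Γ.D y z
  /-- balls -/
  vol : ∀ x t, ({y | Γ.D x y ≤ t} : Finset X).card ≤ (2 * t + 1) ^ d
  idem : ∀ n x, Γ.bl n (Γ.bl n x) = Γ.bl n x
  nest : ∀ n x, Γ.bl (n + 1) (Γ.bl n x) = Γ.bl (n + 1) x
  /-- the diameter of a block -/
  diam : ∀ n x y, Γ.bl n x = Γ.bl n y → Γ.D x y ≤ Γ.L n
  /-- a ball of radius `L n` meets at most `3 ^ d` blocks of level `n` -/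
  meet : ∀ n x, (({y | Γ.D x y ≤ Γ.L n} : Finset X).image (Γ.bl n)).card ≤ 3 ^ d
  /-- the same for the neighbours of a block -/
  meetb : ∀ n x, (({y | ∃ z, Γ.bl n z = Γ.bl n x ∧ Γ.D z y ≤ Γ.L n} : Finset X).image
    (Γ.bl n)).card ≤ 3 ^ d
  /-- the number of sites of a block -/
  bvol : ∀ n x, (Γ.blk n x).card ≤ Γ.L n ^ d

/-- the scales, as far as the geometry needs them -/
structure Scl {X : Type} (Γ : Geo X) (d : ℕ) : Prop where
  J1 : 1 ≤ Γ.J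
  one : ∀ n, 1 ≤ Γ.L n
  rho : ∀ n, 8 * Γ.L n ≤ Γ.ρ (n + 1)
  big : ∀ n, 8 * (3 ^ d * Γ.J * (5 * Γ.L n + 12 * Γ.ρ (n + 1))) ≤ Γ.L (n + 1)

section geo

variable {X : Type} [Fintype X] [DecidableEq X]

/-- blocks of level `n` which are too close to the origin `o` -/
def Geo.near (Γ : Geo X) (o : X) (n : ℕ) : Finset X :=
  {B | Γ.bl n B = B ∧ ∃ y, Γ.bl n y = B ∧ Γ.D o y ≤ 3 * Γ.ρ (n + 1) + 2 * Γ.L n}

/-- the combinatorial failure -/
def Geo.fail (Γ : Geo X) (o : X) (ω : Finset (ℕ × X)) : Prop :=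
  ∃ n ≤ Γ.N, ∃ B ∈ Γ.badS ω n, B ∈ Γ.near o n

/-- the coins -/
def Geo.coins (Γ : Geo X) : Finset (ℕ × X) :=
  (Finset.range (Γ.N + 1) ×ˢ Finset.univ).filter fun i => Γ.bl i.1 i.2 = i.2

end geo

/-- REC: the tree of independent coins. `M n` = the number of blocks of level `n` in one of level
`n + 1`. Proof: for distinct `B_1, …, B_m` of level `n` the probability that all are bad is at most
`q_n ^ m` (induction on `n`, union bound over the choice, for every `i`, of the coin or of `J + 1`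
sub-blocks; sub-blocks of distinct blocks are distinct), then the union bound over `near`. -/
def RecStmt : Prop :=
  ∀ (X : Type) [Fintype X] [DecidableEq X] (Γ : Geo X) (d : ℕ), GeoOk Γ d →
    ∀ (o : X) (π q : ℕ → ℝ) (M : ℕ → ℕ),
    (∀ n B, ({b | Γ.bl n b = b ∧ Γ.bl (n + 1) b = B} : Finset X).card ≤ M n) →
    (∀ n, 0 ≤ π n ∧ π n ≤ 1) → π 0 ≤ q 0 →
    (∀ n, π (n + 1) + (M n * q n) ^ (Γ.J + 1) ≤ q (n + 1)) →
    Phi Γ.coins (Γ.fail o) (fun i => π i.1) ≤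
      ∑ n ∈ Finset.range (Γ.N + 1), ((Γ.near o n).card : ℝ) * q n

/-- SEP: an eligible component. `old` = the bad blocks of level `m` (`n = m + 1`), a block of level
`n` which is not in `bad` has at most `J` of them. Proof: a site `x ∈ Q` lies in `5 b`, `b ∈ old`, at
distance `≤ 2 L m`, and `b` is not in a bad block of level `n` because of the distance. If `Q` had
diameter `> L n / 8` there would be a chain from `x` inside a ball of radius `L n`, meeting at most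
`3 ^ d J` sets `5 b`, of total length at most `3 ^ d J (5 L m + 10 ρ n) < L n / 8`. -/
def SepStmt : Prop :=
  ∀ (X : Type) [Fintype X] [DecidableEq X] (Γ : Geo X) (d : ℕ), GeoOk Γ d → Scl Γ d →
    ∀ (m : ℕ) (old bad op : Finset X) (x : X), x ∈ op → op ⊆ Γ.enl m old 2 →
    (∀ b ∈ old, Γ.bl m b = b) →
    (∀ B, B ∉ bad → (Γ.sub m old B).card ≤ Γ.J) →
    (∀ y ∈ Γ.comp op (10 * Γ.ρ (m + 1)) x, ∀ z ∈ Γ.enl (m + 1) bad 1, Γ.ρ (m + 1) < Γ.D y z) →
    (∀ y ∈ Γ.comp op (10 * Γ.ρ (m + 1)) x, Γ.D x y ≤ Γ.L (m + 1) / 8) ∧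
    (Γ.comp op (10 * Γ.ρ (m + 1)) x).card ≤ 3 ^ d * Γ.J * (6 * Γ.L m + 1) ^ d

/-- SE2: a waiting component stays near the bad blocks. Proof: chain from `y` to the first site within
`ρ n + 2 L m` of `enl n bad 1`; before it the blocks are not bad, as in `SepStmt`. -/
def Se2Stmt : Prop :=
  ∀ (X : Type) [Fintype X] [DecidableEq X] (Γ : Geo X) (d : ℕ), GeoOk Γ d → Scl Γ d →
    ∀ (m : ℕ) (old bad op : Finset X) (x : X), x ∈ op → op ⊆ Γ.enl m old 2 →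
    (∀ b ∈ old, Γ.bl m b = b) →
    (∀ B, B ∉ bad → (Γ.sub m old B).card ≤ Γ.J) →
    (∃ y ∈ Γ.comp op (10 * Γ.ρ (m + 1)) x, ∃ z ∈ Γ.enl (m + 1) bad 1, Γ.D y z ≤ Γ.ρ (m + 1)) →
    ∀ y, Γ.D x y ≤ 3 * Γ.ρ (m + 1) → y ∈ Γ.enl (m + 1) bad 2

end Pool.Agent.ANP
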